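import Pool.Agent.UL7.Stmts

/-!
# Squad UL7, row VLP: the area of `(1 - s) A + s dh A` from below
-/

set_option autoImplicit false

namespace Pool.Agent.UL7.H5

open MeasureTheory Set Pool.Agent.UL3 Pool.Agent.UL4 Pool.Agent.UL5
open scoped Pointwise
open Pool.Agent.UL7

theorem ar_smul (c : ℝ) (S : Set (ℝ × ℝ)) : ar ((fun x => c • x) '' S) = c ^ 2 * ar S := by
  have h1 : (fun x : ℝ × ℝ => c • x) '' S = c • S := rfl
  have h2 : Module.finrank ℝ (ℝ × ℝ) = 2 := by simp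
  unfold ar
  rw [h1, measureReal_def, Measure.addHaar_smul, h2, ENNReal.toReal_mul, measureReal_def,
    ENNReal.toReal_ofReal (abs_nonneg _), abs_of_nonneg (sq_nonneg c)]

theorem ar_mono {S T : Set (ℝ × ℝ)} (h : S ⊆ T) (hT : IsCompact T) : ar S ≤ ar T :=
  measureReal_mono h hT.measure_ne_top

/-- **VLP** -/
theorem vlp (hzon : ZonStmt) (hzap : ZapStmt) (hzli : ZliStmt) (hdhs : DhsStmt) : VlpStmt := by
  intro A s hA hs0 hs1
  obtain ⟨hd1, -, -, hd4⟩ := hdhs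
  obtain ⟨hz1, hz2, hz3⟩ := hzli
  obtain ⟨hPB, hPC⟩ := hd1 A hA
  have hmixc : IsCompact (mix A s) := by
    have h1 : mix A s = (fun q : (ℝ × ℝ) × (ℝ × ℝ) => (1 - s) • q.1 + s • q.2) ''
        (A ×ˢ dh A) := by
      ext p
      constructor
      · rintro ⟨a, ha, m, hm, rfl⟩
        exact ⟨(a, m), ⟨ha, hm⟩, rfl⟩
      · rintro ⟨⟨a, m⟩, ⟨ha, hm⟩, rfl⟩
        exact ⟨a, ha, m, hm, rfl⟩
    rw [h1]
    exact (hA.cpt.prod hPC.cpt).image (by fun_prop)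
  have hAne : A.Nonempty := hA.int.mono interior_subset
  have hMne : (dh A).Nonempty := hPC.int.mono interior_subset
  rcases eq_or_lt_of_le hs0 with hs | hs
  · subst hs
    have h1 : A ⊆ mix A 0 := by
      intro a ha
      obtain ⟨m, hm⟩ := hMne
      exact ⟨a, ha, m, hm, by simp⟩
    have h2 := ar_mono h1 hmixc
    simpa using h2
  rcases eq_or_lt_of_le hs1 with hs' | hs'
  · subst hs'
    have h1 : dh A ⊆ mix A 1 := by
      intro m hm
      obtain ⟨a, ha⟩ := hAne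
      exact ⟨a, ha, m, hm, by simp⟩
    have h2 := ar_mono h1 hmixc
    simpa using h2
  obtain ⟨hX1, hX2⟩ := hd4 A (1 - s) (by linarith)
  have hX : PC ((fun x => (1 - s) • x) '' A) := hX2 hA
  have hdX : PC (dh ((fun x => (1 - s) • x) '' A)) := (hd1 _ hX).2
  have key : ∀ ε : ℝ, 0 < ε → ε < 1 →
      (1 - s) ^ 2 * ar A + (1 - s * ε) ^ 2 * ar (dh A) - (1 - s) ^ 2 * ar (dh A) ≤
        ar (mix A s) := by
    intro ε hε0 hε1
    obtain ⟨l, hl1, hl2⟩ := hzap (dh A) hPB ε hε0 hε1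
    have hZs := (hz2 l).2.2.2.2 s
    have e1 := hzon _ (l.map fun v => s • v) hX
    have h1 : zon ((fun x => (1 - s) • x) '' A) (l.map fun v => s • v) ⊆ mix A s := by
      intro p hp
      rw [hz1, hZs] at hp
      obtain ⟨x, ⟨a, ha, rfl⟩, z, ⟨z0, hz0, rfl⟩, rfl⟩ := hp
      exact ⟨a, ha, z0, hl1 hz0, rfl⟩
    have h2 : (fun x => (1 - s * ε) • x) '' dh A ⊆
        zon (dh ((fun x => (1 - s) • x) '' A)) (l.map fun v => s • v) := by
      rintro p ⟨m, hm, rfl⟩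
      rw [hz1, hZs, hX1]
      refine ⟨(1 - s) • m, ⟨m, hm, rfl⟩, s • ((1 - ε) • m), ⟨(1 - ε) • m, hl2 m hm, rfl⟩, ?_⟩
      show (1 - s * ε) • m = (1 - s) • m + s • ((1 - ε) • m)
      rw [smul_smul, ← add_smul]
      congr 1
      ring
    have h3 := ar_mono h1 hmixc
    have h4 := ar_mono h2 (hz3 _ _ hdX).cpt
    rw [ar_smul] at h4
    rw [e1, ar_smul, hX1, ar_smul] at h3
    rw [hX1] at h4
    linarith
  have hlim : Filter.Tendsto (fun ε : ℝ => (1 - s) ^ 2 * ar A + (1 - s * ε) ^ 2 * ar (dh A) -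
      (1 - s) ^ 2 * ar (dh A)) (nhdsWithin 0 (Ioi 0))
      (nhds ((1 - s) ^ 2 * ar A + (1 - s * 0) ^ 2 * ar (dh A) - (1 - s) ^ 2 * ar (dh A))) := by
    have hc : Continuous (fun ε : ℝ => (1 - s) ^ 2 * ar A + (1 - s * ε) ^ 2 * ar (dh A) -
      (1 - s) ^ 2 * ar (dh A)) := by fun_prop
    exact (hc.tendsto 0).mono_left nhdsWithin_le_nhds
  have h5 := le_of_tendsto hlim (by
    filter_upwards [Ioo_mem_nhdsGT (zero_lt_one' ℝ)] with ε hε
    exact key ε hε.1 hε.2)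
  have h6 : (1 - s) ^ 2 * ar A + (1 - s * 0) ^ 2 * ar (dh A) - (1 - s) ^ 2 * ar (dh A) =
      (1 - s) ^ 2 * ar A + (1 - (1 - s) ^ 2) * ar (dh A) := by ring
  rw [h6] at h5
  exact h5

end Pool.Agent.UL7.H5
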